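import Mathlib
import Pool.Agent.H16.Imp2

set_option autoImplicit false

namespace Pool.Agent.Results.MP_b9c7f5_lc.NPHard

open Pool.Agent.H11.PT Pool.Agent.H16.Imp

theorem result : NPHard fun y : ℕ × List (ℕ × ℕ) => ImpLE (gr y.1 y.2) (3 / 2) := hard.npHard

end Pool.Agent.Results.MP_b9c7f5_lc.NPHard
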